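import Mathlib

set_option autoImplicit false

namespace Pool.Agent.Results.MP_24e13c_co.Chordal

open Finset

noncomputable section

open Classical in
/-- the weight of the closed neighbourhood of `v` -/
def nbw {V : Type} [Fintype V] (G : SimpleGraph V) (f : V → ℝ) (v : V) : ℝ :=
  ∑ u ∈ univ.filter (fun u => u = v ∨ G.Adj v u), f u

/-- the real domination number, in the extended reals -/
def gammaR {V : Type} [Fintype V] (G : SimpleGraph V) : EReal :=
  ⨅ f ∈ {f : V → ℝ | ∀ v, 1 ≤ nbw G f v}, ((∑ v, f v : ℝ) : EReal)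

/-- the domination number -/
def gamma {V : Type} [Fintype V] (G : SimpleGraph V) : ℕ :=
  sInf {k | ∃ D : Finset V, D.card = k ∧ ∀ v, v ∈ D ∨ ∃ u ∈ D, G.Adj v u}

/-- no induced cycle of length at least four -/
def IsChordal {V : Type} (G : SimpleGraph V) : Prop :=
  ∀ n, 4 ≤ n → IsEmpty (SimpleGraph.cycleGraph n ↪g G)

variable {V : Type} {G : SimpleGraph V}

def Q (G : SimpleGraph V) (H : Set V) (a b : V) (k : ℕ) : Prop :=
  ∃ p : ℕ → V, p 0 = a ∧ p k = b ∧ (∀ i < k, G.Adj (p i) (p (i + 1))) ∧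
    ∀ i, 0 < i → i < k → p i ∈ H

lemma Q.snoc {H : Set V} {a b c : V} {k : ℕ} (h : Q G H a b k) (hb : b ∈ H ∨ k = 0)
    (hc : G.Adj b c) : Q G H a c (k + 1) := by
  obtain ⟨p, h0, h1, h2, h3⟩ := h
  refine ⟨fun i => if i ≤ k then p i else c, by simpa using h0, by simp, fun i hi => ?_,
    fun i hi hi' => ?_⟩
  · rcases Nat.lt_succ_iff_lt_or_eq.1 hi with h | rfl
    · simpa [h.le, Nat.succ_le_of_lt h] using h2 i h
    · simpa [h1] using hc
  · rcases Nat.lt_succ_iff_lt_or_eq.1 hi' with h | rfl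
    · simpa [h.le] using h3 i hi h
    · simpa [h1, hi.ne'] using hb

lemma fin_sub {n : ℕ} (hn : 2 ≤ n) (u v : Fin n) :
    (u - v).val = 1 ↔ u.val = v.val + 1 ∨ (u.val = 0 ∧ v.val + 1 = n) := by
  have := u.2
  have := v.2
  rcases le_or_gt v u with h | h
  · rw [Fin.coe_sub_iff_le.2 h]
    have : v.val ≤ u.val := h
    omega
  · rw [Fin.coe_sub_iff_lt.2 h]
    have : u.val < v.val := h
    omega

lemma clique_of (hG : IsChordal G) {H : Set V} {x u w : V} (hx : ∀ z ∈ H, z ≠ x ∧ ¬ G.Adj x z)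
    (hu : G.Adj x u) (hw : G.Adj x w) (huw : u ≠ w) (h : ∃ k, Q G H u w k) : G.Adj u w := by
  classical
  by_contra hn
  obtain ⟨p, h0, h1, h2, h3⟩ := Nat.find_spec h
  have hmin : ∀ k < Nat.find h, ¬ Q G H u w k := fun k hk => Nat.find_min h hk
  generalize Nat.find h = k at *
  have k0 : k ≠ 0 := by rintro rfl; exact huw (h0.symm.trans h1)
  have k1 : k ≠ 1 := by rintro rfl; exact hn (by simpa [h0, h1] using h2 0 one_pos)
  have na : ∀ i j, i + 1 < j → j ≤ k → ¬ G.Adj (p i) (p j) := by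
    intro i j hij hj ha
    obtain ⟨d, rfl⟩ : ∃ d, j = i + 1 + (d + 1) := ⟨j - i - 2, by omega⟩
    obtain ⟨e, rfl⟩ : ∃ e, k = i + 1 + e + (d + 1) := ⟨k - (i + 1 + (d + 1)), by omega⟩
    refine hmin (i + 1 + e) (by omega) ⟨fun t => if t ≤ i then p t else p (t + (d + 1)),
      by simpa using h0, by dsimp only; rw [if_neg (by omega)]; exact h1, fun t ht => ?_, fun t ht ht' => ?_⟩
    · dsimp only
      rcases lt_trichotomy t i with h | rfl | h
      · rw [if_pos h.le, if_pos (Nat.succ_le_of_lt h)]; exact h2 t (by omega)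
      · rw [if_pos le_rfl, if_neg (by omega)]; exact ha
      · rw [if_neg (by omega), if_neg (by omega), add_right_comm]; exact h2 _ (by omega)
    · dsimp only
      split_ifs <;> exact h3 _ (by omega) (by omega)
  have ne : ∀ i j, i < j → j ≤ k → p i ≠ p j := by
    intro i j hij hj he
    rcases hj.eq_or_lt with rfl | hj
    · rcases Nat.eq_zero_or_pos i with rfl | hi
      · exact huw (h0.symm.trans (he.trans h1))
      · exact (hx _ (h3 i hi hij)).2 (by rw [he, h1]; exact hw)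
    · exact na i (j + 1) (by omega) hj (he ▸ h2 j hj)
  have xa : ∀ i ≤ k, p i ≠ x ∧ (G.Adj x (p i) ↔ i = 0 ∨ i = k) := by
    intro i hi
    rcases Nat.eq_zero_or_pos i with rfl | h
    · rw [h0]; exact ⟨hu.ne', by simp [hu]⟩
    rcases hi.eq_or_lt with rfl | h'
    · rw [h1]; exact ⟨hw.ne', by simp [hw]⟩
    · have := hx _ (h3 i h h')
      exact ⟨this.1, ⟨fun h => absurd h this.2, by omega⟩⟩
  have pa : ∀ i j, i ≤ k → j ≤ k → (G.Adj (p i) (p j) ↔ i = j + 1 ∨ j = i + 1) := by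
    intro i j hi hj
    constructor
    · intro ha
      by_contra H
      rcases lt_trichotomy i j with h | rfl | h
      · exact na i j (by omega) hj ha
      · exact ha.ne rfl
      · exact na j i (by omega) hi ha.symm
    · rintro (rfl | rfl)
      · exact (h2 j hi).symm
      · exact h2 i hj
  refine (hG (k + 2) (by omega)).false ⟨⟨fun t => if t.val ≤ k then p t else x, ?_⟩, ?_⟩
  · intro a b hab
    have := a.2
    have := b.2
    by_cases ha : a.val ≤ k <;> by_cases hb : b.val ≤ k <;> simp only [ha, hb, if_true, if_false] at hab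
    · rcases lt_trichotomy a.val b.val with h | h | h
      · exact absurd hab (ne _ _ h hb)
      · exact Fin.ext h
      · exact absurd hab.symm (ne _ _ h ha)
    · exact absurd hab (xa _ ha).1
    · exact absurd hab.symm (xa _ hb).1
    · exact Fin.ext (by omega)
  · intro a b
    have := a.2
    have := b.2
    rw [SimpleGraph.cycleGraph_adj', fin_sub (by omega), fin_sub (by omega)]
    by_cases ha : a.val ≤ k <;> by_cases hb : b.val ≤ k <;>
      simp only [Function.Embedding.coeFn_mk, ha, hb, if_true, if_false]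
    · rw [pa _ _ ha hb]; omega
    · rw [G.adj_comm, (xa _ ha).2]; omega
    · rw [(xa _ hb).2]; omega
    · exact ⟨fun h => absurd h G.irrefl, fun h => by omega⟩

def Simp (G : SimpleGraph V) (s : Finset V) (v : V) : Prop :=
  ∀ a ∈ s, ∀ b ∈ s, G.Adj v a → G.Adj v b → a ≠ b → G.Adj a b

lemma dirac (hG : IsChordal G) (s : Finset V) : ∀ x ∈ s, ∀ y ∈ s, y ≠ x → ¬ G.Adj x y →
    ∃ v ∈ s, v ≠ x ∧ ¬ G.Adj x v ∧ Simp G s v := by
  classical
  induction s using Finset.strongInduction with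
  | H s ih =>
  intro x hx y hy hyx hxy
  let B : V → Prop := fun z => z ∈ s ∧ z ≠ x ∧ ¬ G.Adj x z
  let r : V → V → Prop := fun a b => G.Adj a b ∧ B a ∧ B b
  let H : Set V := {z | Relation.ReflTransGen r y z}
  have HB : ∀ z ∈ H, B z := fun z hz => by
    cases hz with
    | refl => exact ⟨hy, hyx, hxy⟩
    | tail _ h => exact h.2.2
  have Hc : ∀ z ∈ H, ∀ a, B a → G.Adj z a → a ∈ H := fun z hz a ha h =>
    Relation.ReflTransGen.tail hz ⟨h, HB z hz, ha⟩
  let s' := s.filter fun a => a ∈ H ∨ (G.Adj x a ∧ ∃ z ∈ H, G.Adj z a)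
  have hs' : s' ⊂ s := filter_ssubset.2 ⟨x, hx, by
    rintro (h | h)
    · exact (HB x h).2.1 rfl
    · exact h.1.ne rfl⟩
  have lift : ∀ v ∈ H, Simp G s' v → ∃ v ∈ s, v ≠ x ∧ ¬ G.Adj x v ∧ Simp G s v := by
    intro v hv h
    have k : ∀ a ∈ s, G.Adj v a → a ∈ s' := fun a ha h => mem_filter.2 ⟨ha, by
      by_cases h1 : G.Adj x a
      · exact Or.inr ⟨h1, v, hv, h⟩
      · exact Or.inl (Hc v hv a ⟨ha, fun e => (HB v hv).2.2 (e ▸ h.symm), h1⟩ h)⟩
    exact ⟨v, (HB v hv).1, (HB v hv).2.1, (HB v hv).2.2,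
      fun a ha b hb h1 h2 => h a (k a ha h1) b (k b hb h2) h1 h2⟩
  have cl : ∀ u ∈ s', ∀ w ∈ s', u ∉ H → w ∉ H → u ≠ w → G.Adj u w := by
    intro u hu w hw hu' hw' huw
    obtain ⟨a1, z1, a2, a3⟩ := (mem_filter.1 hu).2.resolve_left hu'
    obtain ⟨b1, z2, b2, b3⟩ := (mem_filter.1 hw).2.resolve_left hw'
    refine clique_of hG (H := H) (fun z hz => (HB z hz).2) a1 b1 huw ?_
    have c0 : ∀ z, Relation.ReflTransGen r y z → Relation.ReflTransGen r z y := by
      intro z hz
      induction hz with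
      | refl => exact .refl
      | tail _ h ihz => exact .head ⟨h.1.symm, h.2.2, h.2.1⟩ ihz
    have c1 : Relation.ReflTransGen r z1 z2 := (c0 z1 a2).trans b2
    have c2 : ∀ z, Relation.ReflTransGen r z1 z → ∃ k, Q G H u z k := by
      intro z hz
      induction hz with
      | refl => exact ⟨1, Q.snoc ⟨fun _ => u, rfl, rfl, by simp, by simp⟩ (Or.inr rfl) a3.symm⟩
      | tail h1 h2 ihz =>
        obtain ⟨k, hk⟩ := ihz
        exact ⟨_, hk.snoc (Or.inl (Relation.ReflTransGen.trans a2 h1)) h2.1⟩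
    obtain ⟨k, hk⟩ := c2 z2 c1
    exact ⟨_, hk.snoc (Or.inl b2) b3⟩
  by_cases h1 : ∃ m ∈ s', m ∉ H ∧ ∃ a ∈ s', a ≠ m ∧ ¬ G.Adj m a
  · obtain ⟨m, hm, hm', a, ha, h2, h3⟩ := h1
    obtain ⟨v, hv, v1, v2, v3⟩ := ih s' hs' m hm a ha h2 h3
    exact lift v (by by_contra h; exact v2 (cl m hm v hv hm' h v1.symm)) v3
  push Not at h1
  by_cases h2 : ∃ a ∈ s', ∃ b ∈ s', b ≠ a ∧ ¬ G.Adj a b
  · obtain ⟨a, ha, b, hb, h2, h3⟩ := h2
    obtain ⟨v, hv, v1, v2, v3⟩ := ih s' hs' a ha b hb h2 h3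
    exact lift v (by by_contra h; exact v2 (h1 v hv h a ha v1.symm).symm) v3
  · push Not at h2
    exact lift y Relation.ReflTransGen.refl fun a ha b hb _ _ h => h2 a ha b hb h.symm

lemma peo (hG : IsChordal G) (s : Finset V) : ∃ o : V → ℕ, Set.InjOn o s ∧
    ∀ v ∈ s, ∀ a ∈ s, ∀ b ∈ s, G.Adj v a → G.Adj v b → o v < o a → o v < o b → a ≠ b →
      G.Adj a b := by
  classical
  induction s using Finset.strongInduction with
  | H s ih =>
  rcases s.eq_empty_or_nonempty with rfl | ⟨x, hx⟩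
  · exact ⟨fun _ => 0, by simp, by simp⟩
  obtain ⟨v, hv, hs⟩ : ∃ v ∈ s, Simp G s v := by
    by_cases h : ∃ a ∈ s, ∃ b ∈ s, b ≠ a ∧ ¬ G.Adj a b
    · obtain ⟨a, ha, b, hb, h1, h2⟩ := h
      obtain ⟨v, hv, -, -, h⟩ := dirac hG s a ha b hb h1 h2
      exact ⟨v, hv, h⟩
    · push Not at h
      exact ⟨x, hx, fun a ha b hb _ _ h' => h a ha b hb h'.symm⟩
  obtain ⟨o, o1, o2⟩ := ih _ (erase_ssubset hv)
  refine ⟨fun a => if a = v then 0 else o a + 1, fun a ha b hb h => ?_,
    fun u hu a ha b hb h1 h2 h3 h4 h5 => ?_⟩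
  · by_cases e1 : a = v <;> by_cases e2 : b = v <;> simp only [e1, e2, if_true, if_false] at h
    · rw [e1, e2]
    · omega
    · omega
    · exact o1 (mem_erase.2 ⟨e1, ha⟩) (mem_erase.2 ⟨e2, hb⟩) (by omega)
  · by_cases e : u = v
    · exact hs a ha b hb (e ▸ h1) (e ▸ h2) h5
    · by_cases e1 : a = v
      · simp [e1] at h3
      by_cases e2 : b = v
      · simp [e2] at h4
      simp only [e, e1, e2, if_false] at h3 h4
      exact o2 u (mem_erase.2 ⟨e, hu⟩) a (mem_erase.2 ⟨e1, ha⟩) b (mem_erase.2 ⟨e2, hb⟩) h1 h2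
        (by omega) (by omega) h5

variable [Fintype V]

lemma swap (f g : V → ℝ) : ∑ v, g v * nbw G f v = ∑ v, f v * nbw G g v := by
  classical
  simp only [nbw, sum_filter, mul_sum]
  rw [sum_comm]
  refine sum_congr rfl fun a _ => sum_congr rfl fun b _ => ?_
  by_cases h : a = b ∨ G.Adj b a
  · rw [if_pos h, if_pos (h.imp Eq.symm G.adj_symm), mul_comm]
  · rw [if_neg h, if_neg fun h' => h (h'.imp Eq.symm G.adj_symm), mul_zero, mul_zero]

lemma dom (hG : IsChordal G) {f : V → ℝ} (h0 : ∀ v, 0 ≤ f v) (h1 : ∀ v, nbw G f v = 1) :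
    ∃ D : Finset V, (D.card : ℝ) ≤ ∑ v, f v ∧ ∀ v, v ∈ D ∨ ∃ u ∈ D, G.Adj v u := by
  classical
  obtain ⟨o, o1, o2⟩ := peo hG univ
  simp only [mem_univ, forall_true_left, coe_univ, Set.injOn_univ] at o1 o2
  let N : V → V → Prop := fun v u => u = v ∨ G.Adj v u
  have full : ∀ x y, (∀ z, 0 < f z → N x z → N y z) → ∀ z, 0 < f z → N y z → N x z := by
    intro x y h z hz hyz
    by_contra hn
    have := h1 x
    rw [← h1 y] at this
    simp only [nbw, sum_filter] at this
    refine absurd this (ne_of_lt (sum_lt_sum (fun a _ => ?_) ⟨z, mem_univ _, ?_⟩))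
    · rcases (h0 a).eq_or_lt with e | e
      · simp [← e]
      · split_ifs with a1 a2
        · exact le_rfl
        · exact absurd (h a e a1) a2
        · exact e.le
        · exact le_rfl
    · rw [if_neg hn, if_pos hyz]; exact hz
  have later : ∀ x, (∀ z, 0 < f z → G.Adj x z → o x < o z) → ∀ y, 0 < f y → G.Adj x y →
      ∀ z, 0 < f z → N x z → z ≠ x → N y z := by
    intro x hx y hy hxy z hz hxz hzx
    by_cases e : z = y
    · exact Or.inl e
    · exact Or.inr (o2 x y z hxy (hxz.resolve_left hzx) (hx y hy hxy)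
        (hx z hz (hxz.resolve_left hzx)) (Ne.symm e))
  have P : ∀ n x, o x = n → 0 < f x → ∀ y, 0 < f y → N x y → ∀ z, 0 < f z → (N y z ↔ N x z) := by
    intro n
    induction n using Nat.strong_induction_on with
    | _ n ih =>
    intro x hx fx y fy hxy z fz
    by_cases h : ∃ u, 0 < f u ∧ G.Adj x u ∧ o u < o x
    · obtain ⟨u, fu, a1, a2⟩ := h
      have k := ih (o u) (by omega) u rfl fu
      rw [k y fy ((k x fx (Or.inr a1.symm) y fy).1 hxy) z fz, k x fx (Or.inr a1.symm) z fz]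
    · push Not at h
      rcases hxy with rfl | hxy
      · rfl
      have k : ∀ z, 0 < f z → N x z → N y z := fun z fz hz => by
        by_cases e : z = x
        · exact Or.inr (e ▸ hxy.symm)
        · exact later x (fun z fz a => lt_of_le_of_ne (h z fz a) fun e => a.ne (o1 e))
            y fy hxy z fz hz e
      exact ⟨full x y k z fz, k z fz⟩
  let D := univ.filter fun t => 0 < f t ∧ ∀ z, 0 < f z → G.Adj t z → o z < o t
  have top : ∀ x, 0 < f x → ∃ t ∈ D, N x t ∧ o x ≤ o t := by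
    intro x fx
    obtain ⟨t, ht, hm⟩ := (univ.filter fun z => 0 < f z ∧ N x z).exists_max_image o
      ⟨x, by simp [fx, N]⟩
    simp only [mem_filter, mem_univ, true_and] at ht hm
    refine ⟨t, mem_filter.2 ⟨mem_univ _, ht.1, fun z fz a => lt_of_le_of_ne
      (hm z ⟨fz, (P _ x rfl fx t ht.1 ht.2 z fz).1 (Or.inr a)⟩) fun e => a.ne' (o1 e)⟩, ht.2,
      hm x ⟨fx, Or.inl rfl⟩⟩
  refine ⟨D, ?_, fun v => ?_⟩
  · have e := swap (G := G) f (fun v => if v ∈ D then 1 else 0)
    simp only [h1, mul_one, sum_boole, filter_mem_eq_inter, univ_inter] at e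
    rw [e]
    refine sum_le_sum fun x _ => ?_
    rcases (h0 x).eq_or_lt with fx | fx
    · simp [← fx]
    refine mul_le_of_le_one_right fx.le ?_
    rw [nbw, sum_boole, Nat.cast_le_one, card_le_one]
    intro a ha b hb
    simp only [D, mem_filter, mem_univ, true_and] at ha hb
    by_contra hab
    have := ((P _ x rfl fx a ha.2.1 ha.1 b hb.2.1).2 hb.1).resolve_left (Ne.symm hab)
    have := ha.2.2 b hb.2.1 this
    have := hb.2.2 a ha.2.1 (G.adj_symm ‹_›)
    omega
  suffices h : ∃ t ∈ D, N v t by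
    obtain ⟨t, ht, rfl | h⟩ := h
    · exact Or.inl ht
    · exact Or.inr ⟨t, ht, h⟩
  rcases (h0 v).eq_or_lt with fv | fv
  swap
  · obtain ⟨t, ht, h, -⟩ := top v fv
    exact ⟨t, ht, h⟩
  by_cases h : ∃ u, 0 < f u ∧ G.Adj v u ∧ o u < o v
  · obtain ⟨u, fu, a1, a2⟩ := h
    obtain ⟨t, ht, rfl | h, h'⟩ := top u fu
    · exact ⟨t, ht, Or.inr a1⟩
    · by_cases e : t = v
      · exact ⟨t, ht, Or.inl e⟩
      · exact ⟨t, ht, Or.inr (o2 u v t a1.symm h a2
          (lt_of_le_of_ne h' fun e => h.ne (o1 e)) (Ne.symm e))⟩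
  · push Not at h
    obtain ⟨u, hu, fu⟩ := exists_ne_zero_of_sum_ne_zero ((h1 v).trans_ne one_ne_zero)
    have fu' : 0 < f u := lt_of_le_of_ne (h0 u) fu.symm
    have a1 : G.Adj v u := (mem_filter.1 hu).2.resolve_left (by rintro rfl; exact fu fv.symm)
    obtain ⟨t, ht, h2, -⟩ := top u fu'
    exact ⟨t, ht, full v u (fun z fz hz => later v
      (fun z fz a => lt_of_le_of_ne (h z fz a) fun e => a.ne (o1 e)) u fu' a1 z fz hz
      (by rintro rfl; exact fz.ne fv)) t (mem_filter.1 ht).2.1 h2⟩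

lemma farkas (h : ¬ ∃ f : V → ℝ, (∀ v, 0 ≤ f v) ∧ ∀ v, nbw G f v = 1) :
    ∃ g : V → ℝ, (∀ v, 1 ≤ nbw G g v) ∧ ∑ v, g v < 0 := by
  classical
  let L : (V → ℝ) →ₗ[ℝ] (V → ℝ) :=
    { toFun := nbw G
      map_add' := fun a b => funext fun v => by simp [nbw, sum_add_distrib]
      map_smul' := fun c a => funext fun v => by simp [nbw, mul_sum] }
  obtain ⟨p, a, b, h1, h2, h3⟩ := geometric_hahn_banach_compact_closed
    ((convex_stdSimplex ℝ V).linear_image L)
    ((isCompact_stdSimplex ℝ V).image L.continuous_of_finiteDimensional)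
    (t := {y | (∀ u v, y u = y v) ∧ ∀ v, 0 ≤ y v}) (by
      intro x hx y hy c d hc hd _
      exact ⟨fun u v => by simp [hx.1 u v, hy.1 u v],
        fun v => add_nonneg (mul_nonneg hc (hx.2 v)) (mul_nonneg hd (hy.2 v))⟩)
    (by
      simp only [Set.ofPred_and, Set.ofPred_forall]
      exact (isClosed_iInter fun u => isClosed_iInter fun v =>
        isClosed_eq (continuous_apply u) (continuous_apply v)).inter
        (isClosed_iInter fun v => isClosed_le continuous_const (continuous_apply v)))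
    (by
      rw [Set.disjoint_left]
      rintro _ ⟨y, hy, rfl⟩ ⟨k1, -⟩
      obtain ⟨u, -, hu⟩ := exists_ne_zero_of_sum_ne_zero (hy.2.trans_ne one_ne_zero)
      have hp : 0 < nbw G y u := lt_of_lt_of_le (lt_of_le_of_ne (hy.1 u) hu.symm)
        (single_le_sum (fun i _ => hy.1 i) (by simp))
      refine h ⟨(nbw G y u)⁻¹ • y, fun v => mul_nonneg (inv_nonneg.2 hp.le) (hy.1 v), fun v => ?_⟩
      have := congrFun (L.map_smul (nbw G y u)⁻¹ y) v
      refine this.trans ?_
      show (nbw G y u)⁻¹ * L y v = 1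
      rw [k1 v u]; exact inv_mul_cancel₀ hp.ne')
  have b0 : b < 0 := by simpa using h3 0 ⟨fun _ _ => rfl, fun _ => le_rfl⟩
  have p1 : 0 ≤ p (fun _ => 1) := by
    by_contra hn
    push Not at hn
    have := h3 ((b / p (fun _ => 1)) • fun _ => 1) ⟨fun _ _ => rfl,
      fun _ => by simpa using (div_pos_of_neg_of_neg b0 hn).le⟩
    rw [map_smul, smul_eq_mul, div_mul_cancel₀ _ hn.ne] at this
    exact lt_irrefl _ this
  let q : V → ℝ := fun v => - p (Pi.single v 1)
  have pq : ∀ y : V → ℝ, p y = - ∑ v, y v * q v := fun y => by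
    conv_lhs => rw [pi_eq_sum_univ' y]
    simp [q]
  have q1 : ∀ v, -a < nbw G q v := fun v => by
    have := h1 _ ⟨Pi.single v 1, single_mem_stdSimplex ℝ v, rfl⟩
    rw [pq] at this
    have e := swap (G := G) (Pi.single v 1) q
    simp only [Pi.single_apply, ite_mul, one_mul, zero_mul, sum_ite_eq', mem_univ, if_true] at e
    rw [← e]
    simp only [mul_comm (q _)]
    exact neg_lt.1 this
  have q2 : ∑ v, q v ≤ 0 := by have := pq fun _ => 1; simp only [one_mul] at this; linarith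
  obtain ⟨v0⟩ : Nonempty V := by
    by_contra hV
    exact h ⟨0, fun v => le_rfl, fun v => absurd ⟨v⟩ hV⟩
  have a0 : 0 < -a := by linarith
  refine ⟨(2 / -a) • q - Pi.single v0 1, fun v => ?_, ?_⟩
  · have e : nbw G ((2 / -a) • q - Pi.single v0 1) v =
        (2 / -a) * nbw G q v - nbw G (Pi.single v0 1) v := by
      have := congrFun (L.map_sub ((2 / -a) • q) (Pi.single v0 1)) v
      rw [L.map_smul] at this
      exact this
    have e2 : nbw G (Pi.single v0 1) v ≤ 1 := by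
      simp only [nbw, Pi.single_apply, sum_ite_eq']
      split_ifs <;> norm_num
    have e3 : 2 / -a * -a ≤ 2 / -a * nbw G q v :=
      mul_le_mul_of_nonneg_left (q1 v).le (by positivity)
    rw [div_mul_cancel₀ _ a0.ne'] at e3
    linarith
  · simp only [Pi.sub_apply, Pi.smul_apply, smul_eq_mul, sum_sub_distrib, ← mul_sum,
      Pi.single_apply, sum_ite_eq', mem_univ, if_true]
    have := mul_nonpos_of_nonneg_of_nonpos (show 0 ≤ 2 / -a by positivity) q2
    linarith

end

theorem result (V : Type) [Fintype V] (G : SimpleGraph V) (hG : IsChordal G) :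
    gammaR G = ((gamma G : ℝ) : EReal) ↔
      ∃ f : V → ℝ, (∀ v, 0 ≤ f v) ∧ ∀ v, nbw G f v = 1 := by
  classical
  constructor
  · intro h
    by_contra hn
    obtain ⟨g, h1, h2⟩ := farkas hn
    have h3 : gammaR G ≤ ((∑ v, g v : ℝ) : EReal) := iInf₂_le g h1
    rw [h, EReal.coe_le_coe_iff] at h3
    have : (0 : ℝ) ≤ gamma G := Nat.cast_nonneg _
    linarith
  · rintro ⟨f, h0, h1⟩
    apply le_antisymm
    · obtain ⟨D, hD, hd⟩ : gamma G ∈ {k | ∃ D : Finset V, D.card = k ∧
          ∀ v, v ∈ D ∨ ∃ u ∈ D, G.Adj v u} :=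
        Nat.sInf_mem ⟨_, Finset.univ, rfl, fun v => Or.inl (Finset.mem_univ v)⟩
      refine iInf₂_le_of_le (fun v => if v ∈ D then 1 else 0) (fun v => ?_) (by simp [hD])
      rw [nbw, Finset.sum_boole, Nat.one_le_cast, Finset.one_le_card]
      rcases hd v with h | ⟨u, hu, h⟩
      · exact ⟨v, by simp [h]⟩
      · exact ⟨u, by simp [h, hu]⟩
    · refine le_iInf₂ fun g hg => EReal.coe_le_coe_iff.2 ?_
      obtain ⟨D, hD, hd⟩ := dom hG h0 h1
      have h2 : (gamma G : ℝ) ≤ D.card := Nat.cast_le.2 (Nat.sInf_le ⟨D, rfl, hd⟩)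
      have h3 := swap (G := G) f g
      simp only [h1, mul_one] at h3
      have h4 : ∑ v, f v ≤ ∑ v, f v * nbw G g v :=
        Finset.sum_le_sum fun v _ => le_mul_of_one_le_right (h0 v) (hg v)
      linarith

end Pool.Agent.Results.MP_24e13c_co.Chordal
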